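import Mathlib
import Pool.Agent.Y245.SC.Stm

/-!
SC-ZHOL: the function `Z` is holomorphic on the strip.
-/

set_option autoImplicit false

open Complex MeasureTheory Metric Set Filter Topology ComplexConjugate

namespace Pool.Agent.Y657.SC

open Pool.Agent.Y245.SC

theorem strip_open (ℓ : ℝ) : IsOpen (Strip ℓ) := by
  have h1 : IsOpen {ω : ℂ | -ℓ < ω.re} := isOpen_lt continuous_const continuous_re
  have h2 : IsOpen {ω : ℂ | ω.re < ℓ} := isOpen_lt continuous_re continuous_const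
  exact h1.inter h2

theorem exp_mem {ℓ : ℝ} {ω : ℂ} (h : ω.re < ℓ) : exp ω ∈ ball (0 : ℂ) (Real.exp ℓ) := by
  rw [mem_ball_zero_iff, Complex.norm_exp]
  exact Real.exp_lt_exp.mpr h

theorem fc_diff {φ : ℂ → ℂ} {ℓ : ℝ} (hφ : DifferentiableOn ℂ φ (ball 0 (Real.exp ℓ)))
    {ω : ℂ} (hω : -ℓ < ω.re) : DifferentiableAt ℂ (Fc φ) ω := by
  have h1 : DifferentiableAt ℂ (fun z => φ (exp (-z))) (conj ω) := by
    have h2 : exp (-(conj ω)) ∈ ball (0 : ℂ) (Real.exp ℓ) := exp_mem (by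
      rw [neg_re, conj_re]; linarith)
    exact DifferentiableAt.comp (conj ω) (hφ.differentiableAt (isOpen_ball.mem_nhds h2))
      (by fun_prop)
  have h3 := h1.conj_conj
  rw [Complex.conj_conj] at h3
  exact h3

theorem mul_mem {ℓ : ℝ} {ω : ℂ} (h : ω ∈ Strip ℓ) {t : ℝ} (ht : t ∈ Icc (0 : ℝ) 1) :
    (t : ℂ) * ω ∈ Strip ℓ := by
  obtain ⟨h1, h2⟩ := h
  obtain ⟨t0, t1⟩ := ht
  have e : ((t : ℂ) * ω).re = t * ω.re := by simp
  have hℓ : 0 < ℓ := by linarith
  refine ⟨?_, ?_⟩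
  · rw [e]
    nlinarith
  · rw [e]
    nlinarith

theorem zhol : S_ZHOL := by
  intro hK hP φ a ℓ ha hℓ hφ
  have hkd : Differentiable ℂ (kap a) := (hK a ha.le).1
  have hdφ : DifferentiableOn ℂ (deriv φ) (ball 0 (Real.exp ℓ)) := hφ.deriv isOpen_ball
  have hU := strip_open ℓ
  -- differentiability of the parts
  have hA : ∀ ω ∈ Strip ℓ, DifferentiableAt ℂ (fun z => φ (exp z)) ω := by
    intro ω hω
    exact DifferentiableAt.comp ω
      (hφ.differentiableAt (isOpen_ball.mem_nhds (exp_mem hω.2))) (by fun_prop)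
  have hB : ∀ ω ∈ Strip ℓ, DifferentiableAt ℂ (fun z => deriv φ (exp z)) ω := by
    intro ω hω
    exact DifferentiableAt.comp ω
      (hdφ.differentiableAt (isOpen_ball.mem_nhds (exp_mem hω.2))) (by fun_prop)
  have hF : ∀ ω ∈ Strip ℓ, DifferentiableAt ℂ (Fc φ) ω := fun ω hω => fc_diff hφ hω.1
  set g : ℂ → ℝ → ℂ := fun z t => ker a φ ((t : ℂ) * z) z (Fc φ ((t : ℂ) * z)) * z with hg
  have hcont : ContinuousOn (fun p : ℂ × ℝ => g p.1 p.2) (Strip ℓ ×ˢ Icc (0 : ℝ) 1) := by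
    intro p hp
    obtain ⟨hp1, hp2⟩ := hp
    have hm := mul_mem hp1 hp2
    have hc : ContinuousAt (fun p : ℂ × ℝ => (p.2 : ℂ) * p.1) p := by fun_prop
    have c1 : ContinuousAt (fun p : ℂ × ℝ => Fc φ ((p.2 : ℂ) * p.1)) p :=
      ContinuousAt.comp (f := fun p : ℂ × ℝ => (p.2 : ℂ) * p.1) (hF _ hm).continuousAt hc
    have c2 : ContinuousAt (fun p : ℂ × ℝ => φ (exp ((p.2 : ℂ) * p.1))) p :=
      ContinuousAt.comp (f := fun p : ℂ × ℝ => (p.2 : ℂ) * p.1) (g := fun z => φ (exp z))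
        (hA _ hm).continuousAt hc
    have c3 : ContinuousAt (fun p : ℂ × ℝ => deriv φ (exp ((p.2 : ℂ) * p.1))) p :=
      ContinuousAt.comp (f := fun p : ℂ × ℝ => (p.2 : ℂ) * p.1) (g := fun z => deriv φ (exp z))
        (hB _ hm).continuousAt hc
    have c4 : ContinuousAt (fun p : ℂ × ℝ => φ (exp p.1)) p :=
      ContinuousAt.comp (f := fun p : ℂ × ℝ => p.1) (g := fun z => φ (exp z))
        (hA _ hp1).continuousAt continuousAt_fst
    have c5 : ContinuousAt (fun p : ℂ × ℝ => kap a (Fc φ ((p.2 : ℂ) * p.1) *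
        (φ (exp ((p.2 : ℂ) * p.1)) - φ (exp p.1)))) p :=
      ContinuousAt.comp (f := fun p : ℂ × ℝ => Fc φ ((p.2 : ℂ) * p.1) *
        (φ (exp ((p.2 : ℂ) * p.1)) - φ (exp p.1))) (g := kap a)
        hkd.continuous.continuousAt (c1.mul (c2.sub c4))
    have c6 : ContinuousAt (fun p : ℂ × ℝ => exp ((p.2 : ℂ) * p.1)) p := by fun_prop
    exact ((((c1.pow 2).mul c5).mul (c3.mul c6)).mul continuousAt_fst).continuousWithinAt
  have hdiff : ∀ t ∈ Icc (0 : ℝ) 1, DifferentiableOn ℂ (fun z => g z t) (Strip ℓ) := by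
    intro t ht z hz
    have hm := mul_mem hz ht
    have hc : DifferentiableAt ℂ (fun z : ℂ => (t : ℂ) * z) z := by fun_prop
    have c1 : DifferentiableAt ℂ (fun z => Fc φ ((t : ℂ) * z)) z :=
      DifferentiableAt.comp (f := fun z : ℂ => (t : ℂ) * z) z (hF _ hm) hc
    have c2 : DifferentiableAt ℂ (fun z => φ (exp ((t : ℂ) * z))) z :=
      DifferentiableAt.comp (f := fun z : ℂ => (t : ℂ) * z) (g := fun z => φ (exp z)) z
        (hA _ hm) hc
    have c3 : DifferentiableAt ℂ (fun z => deriv φ (exp ((t : ℂ) * z))) z :=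
      DifferentiableAt.comp (f := fun z : ℂ => (t : ℂ) * z) (g := fun z => deriv φ (exp z)) z
        (hB _ hm) hc
    have c4 : DifferentiableAt ℂ (fun z => φ (exp z)) z := hA _ hz
    have c5 : DifferentiableAt ℂ (fun z => kap a (Fc φ ((t : ℂ) * z) *
        (φ (exp ((t : ℂ) * z)) - φ (exp z)))) z :=
      DifferentiableAt.comp (f := fun z : ℂ => Fc φ ((t : ℂ) * z) *
        (φ (exp ((t : ℂ) * z)) - φ (exp z))) (g := kap a) z (hkd _) (c1.mul (c2.sub c4))
    have c6 : DifferentiableAt ℂ (fun z => exp ((t : ℂ) * z)) z := by fun_prop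
    exact ((((c1.pow 2).mul c5).mul (c3.mul c6)).mul differentiableAt_id).differentiableWithinAt
  have hI := hP (Strip ℓ) g hU hcont hdiff
  intro ω hω
  refine ((hF ω hω).differentiableWithinAt).sub ?_
  have hI' := hI ω hω
  refine hI'.congr (fun z _ => ?_) ?_
  · unfold seg
    simp only [sub_zero, zero_add, hg]
  · unfold seg
    simp only [sub_zero, zero_add, hg]

end Pool.Agent.Y657.SC
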